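import Pool.Agent.R196.PP.Pieces

/-! P3a, P3b, P3d of MP_68f671_pr. -/

namespace Pool.Agent.R196.PP

theorem stp_add_two (e : Fin 4) : stp (e + 2) = -stp e := by
  fin_cases e <;> rfl

theorem add_two_two (e : Fin 4) : e + 2 + 2 = e := by
  fin_cases e <;> rfl

section
variable {M N Lm : ℕ} {A : Set Pt}

theorem GEnv.perMI (h : GEnv M N Lm A) (v : Pt) (i : ℤ) : ((v.1 + i * M, v.2) : Pt) ∈ A ↔ v ∈ A := by
  induction i using Int.induction_on with
  | zero => simp
  | succ i ih =>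
    have := h.perM (v.1 + i * M, v.2)
    rw [← ih, ← this]
    have e : ((v.1 + ((i : ℤ) + 1) * M, v.2) : Pt) = (v.1 + i * M + M, v.2) := by
      rw [Prod.mk.injEq]; exact ⟨by ring, rfl⟩
    rw [e]
  | pred i ih =>
    have := h.perM (v.1 + (-(i : ℤ) - 1) * M, v.2)
    rw [← ih, ← this]
    have e : ((v.1 + -(i : ℤ) * M, v.2) : Pt) = (v.1 + (-(i : ℤ) - 1) * M + M, v.2) := by
      rw [Prod.mk.injEq]; exact ⟨by ring, rfl⟩
    rw [e]

theorem GEnv.perNI (h : GEnv M N Lm A) (v : Pt) (i : ℤ) : ((v.1, v.2 + i * N) : Pt) ∈ A ↔ v ∈ A := by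
  induction i using Int.induction_on with
  | zero => simp
  | succ i ih =>
    have := h.perN (v.1, v.2 + i * N)
    rw [← ih, ← this]
    have e : ((v.1, v.2 + ((i : ℤ) + 1) * N) : Pt) = (v.1, v.2 + i * N + N) := by
      rw [Prod.mk.injEq]; exact ⟨rfl, by ring⟩
    rw [e]
  | pred i ih =>
    have := h.perN (v.1, v.2 + (-(i : ℤ) - 1) * N)
    rw [← ih, ← this]
    have e : ((v.1, v.2 + -(i : ℤ) * N) : Pt) = (v.1, v.2 + (-(i : ℤ) - 1) * N + N) := by
      rw [Prod.mk.injEq]; exact ⟨rfl, by ring⟩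
    rw [e]

theorem GEnv.per (h : GEnv M N Lm A) (v : Pt) (i j : ℤ) :
    ((v.1 + i * M, v.2 + j * N) : Pt) ∈ A ↔ v ∈ A := by
  have h1 := h.perNI (v.1 + i * M, v.2) j
  have h2 := h.perMI v i
  exact h1.trans h2

theorem GEnv.nonempty (h : GEnv M N Lm A) (v : Pt) (e : Fin 4) :
    {k : ℕ | 1 ≤ k ∧ v + (k : ℤ) • stp e ∈ A}.Nonempty := by
  obtain ⟨k, h1, _, h3⟩ := h.hit v e
  exact ⟨k, h1, h3⟩

theorem GEnv.gp_spec (h : GEnv M N Lm A) (v : Pt) (e : Fin 4) :
    1 ≤ gp A v e ∧ v + (gp A v e : ℤ) • stp e ∈ A :=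
  Nat.sInf_mem (h.nonempty v e)

theorem GEnv.nb_mem (h : GEnv M N Lm A) (v : Pt) (e : Fin 4) : nb A v e ∈ A :=
  (h.gp_spec v e).2

theorem GEnv.gp_le (h : GEnv M N Lm A) (v : Pt) (e : Fin 4) : gp A v e ≤ 2 * Lm + 1 := by
  obtain ⟨k, h1, h2, h3⟩ := h.hit v e
  exact (Nat.sInf_le (show k ∈ {k : ℕ | 1 ≤ k ∧ v + (k : ℤ) • stp e ∈ A} from ⟨h1, h3⟩)).trans h2

theorem gp_min (v : Pt) (e : Fin 4) (k : ℕ) (h1 : 1 ≤ k) (h2 : k < gp A v e) :
    v + (k : ℤ) • stp e ∉ A := fun h3 =>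
  absurd (Nat.sInf_le (show k ∈ {k : ℕ | 1 ≤ k ∧ v + (k : ℤ) • stp e ∈ A} from ⟨h1, h3⟩))
    (not_le.2 h2)

theorem GEnv.gp_tr (h : GEnv M N Lm A) (v : Pt) (e : Fin 4) (i j : ℤ) :
    gp A (v.1 + i * M, v.2 + j * N) e = gp A v e := by
  unfold gp
  congr 1
  ext k
  simp only [Set.mem_setOf_eq]
  have h1 := h.per (v + (k : ℤ) • stp e) i j
  have e1 : (((v + (k : ℤ) • stp e).1 + i * M, (v + (k : ℤ) • stp e).2 + j * N) : Pt) =
      ((v.1 + i * M, v.2 + j * N) : Pt) + (k : ℤ) • stp e := by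
    ext
    · simp; ring
    · simp; ring
  rw [e1] at h1
  rw [h1]

theorem GEnv.nb_tr (h : GEnv M N Lm A) (v : Pt) (e : Fin 4) (i j : ℤ) :
    nb A (v.1 + i * M, v.2 + j * N) e = ((nb A v e).1 + i * M, (nb A v e).2 + j * N) := by
  unfold nb
  rw [h.gp_tr v e i j]
  ext
  · simp; ring
  · simp; ring

theorem GEnv.gp_neg (h : GEnv M N Lm A) (v : Pt) (e : Fin 4) : gp A (-v) (e + 2) = gp A v e := by
  unfold gp
  congr 1
  ext k
  simp only [Set.mem_setOf_eq, stp_add_two]
  have h1 := h.neg (v + (k : ℤ) • stp e)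
  have e1 : -(v + (k : ℤ) • stp e) = -v + (k : ℤ) • -stp e := by
    rw [smul_neg]; abel
  rw [e1] at h1
  rw [h1]

theorem GEnv.nb_neg (h : GEnv M N Lm A) (v : Pt) (e : Fin 4) :
    nb A (-v) (e + 2) = -nb A v e := by
  unfold nb
  rw [h.gp_neg v e, stp_add_two, smul_neg]
  abel

theorem GEnv.nb_inv (h : GEnv M N Lm A) (v : Pt) (hv : v ∈ A) (e : Fin 4) :
    nb A (nb A v e) (e + 2) = v := by
  have hg := h.gp_spec v e
  have hgp : gp A (nb A v e) (e + 2) = gp A v e := by
    apply le_antisymm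
    · apply Nat.sInf_le
      refine ⟨hg.1, ?_⟩
      have : nb A v e + (gp A v e : ℤ) • stp (e + 2) = v := by
        unfold nb
        rw [stp_add_two, smul_neg]
        abel
      rw [this]
      exact hv
    · by_contra hlt
      rw [not_le] at hlt
      have hs := h.gp_spec (nb A v e) (e + 2)
      set k := gp A (nb A v e) (e + 2) with hk
      have e1 : nb A v e + (k : ℤ) • stp (e + 2) = v + ((gp A v e - k : ℕ) : ℤ) • stp e := by
        unfold nb
        rw [stp_add_two, Nat.cast_sub hlt.le, smul_neg, sub_smul]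
        abel
      rw [e1] at hs
      exact gp_min v e (gp A v e - k) (by omega) (by omega) hs.2
  have e0 : nb A (nb A v e) (e + 2) =
      nb A v e + (gp A (nb A v e) (e + 2) : ℤ) • stp (e + 2) := rfl
  rw [e0, hgp, stp_add_two, smul_neg]
  unfold nb
  abel

end

theorem P3a_holds : P3a := by
  intro M N Lm A h
  refine ⟨h.nb_mem, ?_, h.nb_tr, h.nb_neg, h.nb_inv⟩
  intro v e
  exact ⟨gp A v e, (h.gp_spec v e).1, h.gp_le v e, rfl, rfl⟩

/-! ### reduction modulo the periods -/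

/-- reduction to the fundamental cell -/
def red (M N : ℕ) (v : Pt) : Pt := (v.1 % M, v.2 % N)

theorem red_eq (M N : ℕ) (v : Pt) :
    red M N v = (v.1 + (-(v.1 / M)) * M, v.2 + (-(v.2 / N)) * N) := by
  unfold red
  rw [Prod.mk.injEq]
  constructor
  · rw [Int.emod_def]; ring
  · rw [Int.emod_def]; ring

theorem red_tr (M N : ℕ) (v : Pt) (i j : ℤ) : red M N (v.1 + i * M, v.2 + j * N) = red M N v := by
  unfold red
  rw [Prod.mk.injEq]
  exact ⟨Int.add_mul_emod_self_right _ _ _, Int.add_mul_emod_self_right _ _ _⟩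

theorem red_cell {M N : ℕ} (hM : 0 < M) (hN : 0 < N) (v : Pt) : red M N v ∈ cell M N := by
  unfold red cell
  have h1 : (0 : ℤ) < M := by exact_mod_cast hM
  have h2 : (0 : ℤ) < N := by exact_mod_cast hN
  rw [Finset.mem_product, Finset.mem_Ico, Finset.mem_Ico]
  exact ⟨⟨Int.emod_nonneg _ h1.ne', Int.emod_lt_of_pos _ h1⟩,
    ⟨Int.emod_nonneg _ h2.ne', Int.emod_lt_of_pos _ h2⟩⟩

theorem red_of_cell {M N : ℕ} (v : Pt) (hv : v ∈ cell M N) : red M N v = v := by
  unfold cell at hv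
  rw [Finset.mem_product, Finset.mem_Ico, Finset.mem_Ico] at hv
  unfold red
  ext
  · exact Int.emod_eq_of_lt hv.1.1 hv.1.2
  · exact Int.emod_eq_of_lt hv.2.1 hv.2.2

theorem red_eq_iff (M N : ℕ) (v w : Pt) :
    red M N v = red M N w ↔ ∃ i j : ℤ, v = (w.1 + i * M, w.2 + j * N) := by
  constructor
  · intro h
    have h1 := red_eq M N v
    have h2 := red_eq M N w
    rw [h, h2, Prod.mk.injEq] at h1
    refine ⟨-(w.1 / M) + v.1 / M, -(w.2 / N) + v.2 / N, ?_⟩
    ext
    · simp only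
      linarith [h1.1]
    · simp only
      linarith [h1.2]
  · rintro ⟨i, j, rfl⟩
    exact red_tr M N w i j

section
variable {M N Lm : ℕ} {A : Set Pt}

theorem GEnv.posM (h : GEnv M N Lm A) : 0 < M := by
  obtain ⟨k, hk⟩ := h.oddM; omega

theorem GEnv.posN (h : GEnv M N Lm A) : 0 < N := by
  obtain ⟨k, hk⟩ := h.oddN; omega

theorem GEnv.red_mem (h : GEnv M N Lm A) (v : Pt) : red M N v ∈ A ↔ v ∈ A := by
  rw [red_eq]
  exact h.per v _ _

theorem GEnv.nb_red (h : GEnv M N Lm A) (v : Pt) (e : Fin 4) :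
    red M N (nb A (red M N v) e) = red M N (nb A v e) := by
  rw [red_eq M N v, h.nb_tr]
  exact red_tr _ _ _ _ _

theorem GEnv.nb_red_congr (h : GEnv M N Lm A) {v w : Pt} (hvw : red M N v = red M N w)
    (e : Fin 4) : red M N (nb A v e) = red M N (nb A w e) := by
  rw [← h.nb_red v, ← h.nb_red w, hvw]

theorem Per.red_eq' {α : Type*} {f : Pt → α} (hf : Per M N f) (v : Pt) :
    f (red M N v) = f v := by
  have hM : ∀ (v : Pt) (i : ℤ), f (v.1 + i * M, v.2) = f v := by
    intro v i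
    induction i using Int.induction_on with
    | zero => simp
    | succ i ih =>
      have := hf.1 (v.1 + i * M, v.2)
      rw [← ih, ← this]
      have e : ((v.1 + ((i : ℤ) + 1) * M, v.2) : Pt) = (v.1 + i * M + M, v.2) := by
        rw [Prod.mk.injEq]; exact ⟨by ring, rfl⟩
      rw [e]
    | pred i ih =>
      have := hf.1 (v.1 + (-(i : ℤ) - 1) * M, v.2)
      rw [← ih, ← this]
      have e : ((v.1 + -(i : ℤ) * M, v.2) : Pt) = (v.1 + (-(i : ℤ) - 1) * M + M, v.2) := by
        rw [Prod.mk.injEq]; exact ⟨by ring, rfl⟩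
      rw [e]
  have hN : ∀ (v : Pt) (i : ℤ), f (v.1, v.2 + i * N) = f v := by
    intro v i
    induction i using Int.induction_on with
    | zero => simp
    | succ i ih =>
      have := hf.2 (v.1, v.2 + i * N)
      rw [← ih, ← this]
      have e : ((v.1, v.2 + ((i : ℤ) + 1) * N) : Pt) = (v.1, v.2 + i * N + N) := by
        rw [Prod.mk.injEq]; exact ⟨rfl, by ring⟩
      rw [e]
    | pred i ih =>
      have := hf.2 (v.1, v.2 + (-(i : ℤ) - 1) * N)
      rw [← ih, ← this]
      have e : ((v.1, v.2 + -(i : ℤ) * N) : Pt) = (v.1, v.2 + (-(i : ℤ) - 1) * N + N) := by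
        rw [Prod.mk.injEq]; exact ⟨rfl, by ring⟩
      rw [e]
  rw [red_eq M N v]
  rw [hN (v.1 + -(v.1 / M) * M, v.2), hM]

end

theorem P3b_holds : P3b := by
  classical
  intro M N Lm A h f hf e
  unfold csum
  apply Finset.sum_nbij' (fun v => red M N (nb A v e)) (fun w => red M N (nb A w (e + 2)))
  · intro v _
    rw [Finset.mem_filter]
    exact ⟨red_cell h.posM h.posN _, (h.red_mem _).2 (h.nb_mem _ _)⟩
  · intro v _
    rw [Finset.mem_filter]
    exact ⟨red_cell h.posM h.posN _, (h.red_mem _).2 (h.nb_mem _ _)⟩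
  · intro v hv
    rw [Finset.mem_filter] at hv
    rw [h.nb_red, h.nb_inv v hv.2, red_of_cell v hv.1]
  · intro v hv
    rw [Finset.mem_filter] at hv
    have h2 := h.nb_inv v hv.2 (e + 2)
    rw [add_two_two] at h2
    rw [h.nb_red, h2, red_of_cell v hv.1]
  · intro v _
    exact (hf.red_eq' _).symm

theorem reach {M N Lm : ℕ} {A : Set Pt} (h : GEnv M N Lm A) (t : ℕ) : ∀ v : Pt,
    v + (t : ℤ) • stp 0 ∈ A → ∃ n : ℕ, (fun z => nb A z 0)^[n] v = v + (t : ℤ) • stp 0 := by
  induction t using Nat.strong_induction_on with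
  | _ t ih =>
    intro v hv
    rcases Nat.eq_zero_or_pos t with ht | ht
    · subst ht
      exact ⟨0, by simp⟩
    · have hg := h.gp_spec v 0
      have hle : gp A v 0 ≤ t := Nat.sInf_le ⟨ht, hv⟩
      have e1 : nb A v 0 + ((t - gp A v 0 : ℕ) : ℤ) • stp 0 = v + (t : ℤ) • stp 0 := by
        unfold nb
        rw [Nat.cast_sub hle, sub_smul]
        abel
      obtain ⟨n, hn⟩ := ih (t - gp A v 0) (by omega) (nb A v 0) (by rw [e1]; exact hv)
      refine ⟨n + 1, ?_⟩
      rw [Function.iterate_succ_apply]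
      rw [hn, e1]

theorem crt (M N : ℕ) (hM : 0 < M) (hN : 0 < N) (hc : Nat.Coprime M N) (x y : ℤ) :
    ∃ t : ℕ, (M : ℤ) ∣ (x - t) ∧ (N : ℤ) ∣ (y - t) := by
  have hM' : (M : ℤ) ≠ 0 := by exact_mod_cast hM.ne'
  have hN' : (N : ℤ) ≠ 0 := by exact_mod_cast hN.ne'
  obtain ⟨t, h1, h2⟩ := Nat.chineseRemainder hc (x % M).toNat (y % N).toNat
  refine ⟨t, ?_, ?_⟩
  · have h3 := (Int.natCast_modEq_iff.2 h1)
    rw [Int.toNat_of_nonneg (Int.emod_nonneg _ hM')] at h3
    have h4 : x % M ≡ x [ZMOD M] := Int.mod_modEq x M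
    exact (h3.trans h4).dvd
  · have h3 := (Int.natCast_modEq_iff.2 h2)
    rw [Int.toNat_of_nonneg (Int.emod_nonneg _ hN')] at h3
    have h4 : y % N ≡ y [ZMOD N] := Int.mod_modEq y N
    exact (h3.trans h4).dvd

theorem P3d_holds : P3d := by
  classical
  intro M N Lm A h v hv w hw
  -- some iterate is congruent to `w`
  have hex : ∃ n : ℕ, red M N ((fun z => nb A z 0)^[n] v) = red M N w := by
    obtain ⟨t, ⟨i, hi⟩, ⟨j, hj⟩⟩ := crt M N h.posM h.posN h.cop (w.1 - v.1) (w.2 - v.2)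
    have e1 : v + (t : ℤ) • stp 0 = (w.1 + (-i) * M, w.2 + (-j) * N) := by
      ext
      · simp [stp]
        linarith
      · simp [stp]
        linarith
    have hmem : v + (t : ℤ) • stp 0 ∈ A := by
      rw [e1]
      exact (h.per w _ _).2 hw
    obtain ⟨n, hn⟩ := reach h t v hmem
    refine ⟨n, ?_⟩
    rw [hn, e1]
    exact red_tr _ _ _ _ _
  have hiter : ∀ (k : ℕ) (x y : Pt), red M N x = red M N y →
      red M N ((fun z => nb A z 0)^[k] x) = red M N ((fun z => nb A z 0)^[k] y) := by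
    intro k
    induction k with
    | zero => intro x y hxy; exact hxy
    | succ k ih =>
      intro x y hxy
      rw [Function.iterate_succ_apply, Function.iterate_succ_apply]
      exact ih _ _ (h.nb_red_congr hxy 0)
  have hn := Nat.find_spec hex
  have hmin : ∀ m < Nat.find hex, red M N ((fun z => nb A z 0)^[m] v) ≠ red M N w :=
    fun m hm => Nat.find_min hex hm
  set n := Nat.find hex with hndef
  -- distinctness
  have hdist : ∀ m m' : ℕ, m < m' → m' ≤ n →
      red M N ((fun z => nb A z 0)^[m] v) ≠ red M N ((fun z => nb A z 0)^[m'] v) := by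
    intro m m' hmm hm' heq
    have h1 := hiter (n - m') _ _ heq
    rw [← Function.iterate_add_apply, ← Function.iterate_add_apply,
      show n - m' + m' = n by omega, hn] at h1
    exact hmin (n - m' + m) (by omega) h1
  obtain ⟨i, j, hij⟩ := (red_eq_iff M N _ _).1 hn
  refine ⟨n, i, j, ?_, hij, ?_⟩
  · -- counting
    have hinj : Set.InjOn (fun m => red M N ((fun z => nb A z 0)^[m] v))
        (Finset.range (n + 1) : Set ℕ) := by
      intro m hm m' hm' heq
      rw [Finset.coe_range, Set.mem_Iio] at hm hm'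
      by_contra hne
      rcases lt_or_gt_of_ne hne with hlt | hlt
      · exact hdist m m' hlt (by omega) heq
      · exact hdist m' m hlt (by omega) heq.symm
    have hcard := Finset.card_le_card_of_injOn (s := Finset.range (n + 1)) (t := cell M N)
      (fun m => red M N ((fun z => nb A z 0)^[m] v))
      (fun m _ => red_cell h.posM h.posN _) hinj
    rw [Finset.card_range] at hcard
    unfold cell at hcard
    rw [Finset.card_product, Int.card_Ico, Int.card_Ico] at hcard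
    simp only [sub_zero, Int.toNat_natCast] at hcard
    omega
  · intro m m' hmm hm' i' j' heq
    apply hdist m m' hmm hm'.le
    rw [heq]
    exact red_tr _ _ _ _ _

end Pool.Agent.R196.PP
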